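import Mathlib
import Pool.Agent.T6.H54.PM.CampFin

set_option autoImplicit false

/-!
# Chains of integral points of C-pairs which are periodic modulo primes

Let `K` be a number field, `S` a set of primes and `δ > 0` such that
`∑_{p ∈ S, p ≤ n} log p ≥ δ n` for all `n ≥ n₀` (for the set of all primes every `δ < 1` is possible),
and `c = (δ / 16) ^ 3`. We consider chains `P 0, P 1, …, P T` of `K`-rational points of projective
space such that `P (n + p)` and `P n` are congruent modulo `p` for all `p ∈ S`, `p₀ ≤ p`, and such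
that the absolute logarithmic height of `P n` is at most `c n + C₀` (`Chain`).

(1) Let `X` be any closed subset of projective space over `K`, given by forms with coefficients in
`𝓞 K`, `D 0, …, D (q - 1)` any closed subsets, given by forms `B i l`, `m i ∈ {1, 2, …, ∞}`
multiplicities, and `S₀` a finite set of primes of `K`. Then there are a number `T₀` and a finite set
`𝓕` of polynomial orbifold curves `𝔸¹ → (X, ∑ (1 - 1 / m i) D i)` over `K` such that every chain of
length `T ≥ T₀` of `S₀`-integral points of the C-pair is of the form `f (0), f (1), …, f (T)` with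
`f ∈ 𝓕`. So all these chains together lie on finitely many rational curves (and are not dense if
`dim X ≥ 2`); if the C-pair contains no nonconstant polynomial orbifold curves, they are constant.

(2) For `X = ℙ¹` and reduced disjoint divisors `D i` (given by binary forms `B i` of degrees `e i`
without multiple and common zeros in the algebraic closure) such that the pair is of general type, or
more generally `∑ (1 - 1 / m i) deg (D i) ≥ 2`, there are no nonconstant polynomial orbifold curves,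
and all chains of integral points of length `T ≥ T₀` are constant.

(The primes at which the closures of `X` and of the `D i` in projective space over `𝓞 K` are not given
by the forms, or where another model is chosen, can be put into `S₀`; enlarging `S₀` enlarges the set
of integral points. Points on the `D i` are admitted.)
-/

namespace Pool.Agent.Results.MP_464c42_nt.PeriodicModuloPrimes

open NumberField Polynomial IsDedekindDomain Pool.Agent.T6.H54.PM

theorem result (K : Type) [Field K] [NumberField K] (S : Set ℕ) (hS : ∀ p ∈ S, p.Prime)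
    (δ : ℝ) (hδ : 0 < δ) (n₀ : ℕ) (hwt : ∀ n : ℕ, n₀ ≤ n → δ * n ≤ wt S n) (p₀ : ℕ) (C₀ : ℝ)
    (S₀ : Set (HeightOneSpectrum (𝓞 K))) (hS₀ : S₀.Finite) :
    -- (1)
    (∀ (N : ℕ) (FF : Set (MvPolynomial (Fin (N + 1)) (𝓞 K))),
      (∀ G ∈ FF, ∃ e, G.IsHomogeneous e) →
      ∀ (q w : ℕ) (B : Fin q → Fin w → MvPolynomial (Fin (N + 1)) (𝓞 K)) (m : Fin q → ℕ∞),
        ∃ 𝓕 : Set (Fin (N + 1) → K[X]), 𝓕.Finite ∧ (∀ f ∈ 𝓕, OrbifoldCurve FF B m f) ∧
        ∃ T₀ : ℕ, ∀ T ≥ T₀, ∀ P : ℕ → Fin (N + 1) → K, Chain S p₀ ((δ / 16) ^ 3) C₀ T P →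
          (∀ n ≤ T, (∀ G ∈ FF, MvPolynomial.aeval (P n) G = 0) ∧ IsIntegralPoint S₀ B m (P n)) →
          ∃ f ∈ 𝓕, ∀ n ≤ T, Same (P n) (fun j => (f j).eval (n : K))) ∧
    -- (2)
    (∀ (q : ℕ) (B : Fin q → MvPolynomial (Fin 2) (𝓞 K)) (e : Fin q → ℕ),
      (∀ i, (B i).IsHomogeneous (e i)) →
      (∀ i (z : Fin 2 → AlgebraicClosure K), z ≠ 0 → MvPolynomial.aeval z (B i) = 0 →
        ∃ j, MvPolynomial.aeval z (MvPolynomial.pderiv j (B i)) ≠ 0) →
      (∀ i i', i ≠ i' → ∀ z : Fin 2 → AlgebraicClosure K, z ≠ 0 →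
        MvPolynomial.aeval z (B i) = 0 → MvPolynomial.aeval z (B i') ≠ 0) →
      ∀ m : Fin q → ℕ∞, (∀ i, 1 ≤ m i) → 2 ≤ ∑ i, cf (m i) * e i →
        (∀ f : Fin 2 → K[X], OrbifoldCurve (N := 1) ∅ (fun i (_ : Fin 1) => B i) m f →
          ∀ j, ∃ c : K, f j = C c) ∧
        ∃ T₀ : ℕ, ∀ T ≥ T₀, ∀ P : ℕ → Fin 2 → K,
          Chain (N := 1) S p₀ ((δ / 16) ^ 3) C₀ T P →
          (∀ n ≤ T, IsIntegralPoint (N := 1) S₀ (fun i (_ : Fin 1) => B i) m (P n)) →
          ∀ n ≤ T, Same (N := 1) (P n) (P 0)) :=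
  ⟨fun _ FF hFF _ _ B m => camp_fin hS hδ hwt p₀ C₀ FF hFF B m S₀ hS₀,
    fun _ B e hB hsm hdj m hm1 hdeg =>
      ⟨fun f hf j => orb_line B e hB hsm hdj m hm1 hdeg f hf j,
        line_fin hS hδ hwt p₀ C₀ B e hB hsm hdj m hm1 hdeg S₀ hS₀⟩⟩

end Pool.Agent.Results.MP_464c42_nt.PeriodicModuloPrimes
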