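import Pool.Agent.T6.H23.CP.FB
import Pool.Agent.T6.H23.TB.NatGen

/-!
# Integral points on C-pairs of general type on the line: less than `B ^ (1 / 2)` of height `B`, and random additive bases

We consider ALL C-pairs `(ℙ¹, (1 - 1 / m_0) (0) + (1 - 1 / m_1) (1) + (1 - 1 / m_2) (∞))` of general type over `ℚ` at once.
They have at most `B ^ (167 / 336 + ε)` `S`-integral points of height at most `B`. As `167 / 336 < 1 / 2`, random additive
bases of order two can be sparser: for `167 / 336 < α < 1 / 2` almost every random set of naturals of density `n ^ (-α)` is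
an asymptotic additive basis of order two, and contains a large one of the three numbers `|num x|`, `|num x - den x|`,
`den x` only for finitely many of these points `x`.
-/

set_option autoImplicit false

namespace Pool.Agent.Results.MP_464c42_nt.RandomBases

open MeasureTheory ProbabilityTheory

/-- `1 / m`, with `1 / ∞ = 0` -/
noncomputable def recip (m : ℕ∞) : ℝ := (m.toNat : ℝ)⁻¹

/-- each prime `p ∉ S` which divides `n` divides it at least `m` times -/
def Full (S : Finset ℕ) (m : ℕ∞) (n : ℤ) : Prop :=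
  ∀ p : ℕ, p.Prime → p ∉ S → (p : ℤ) ∣ n → ∀ k : ℕ, (k : ℕ∞) ≤ m → (p : ℤ) ^ k ∣ n

/-- the `S`-integral points of the C-pair `(ℙ¹, (1 - 1 / m_0) (0) + (1 - 1 / m_1) (1) + (1 - 1 / m_2) (∞))` over `ℚ` -/
def Points (S : Finset ℕ) (m : Fin 3 → ℕ∞) : Set ℚ :=
  {x | x ≠ 0 ∧ x ≠ 1 ∧ Full S (m 0) x.num ∧ Full S (m 1) (x.num - x.den) ∧ Full S (m 2) x.den}

/-- the `S`-integral points of SOME of these C-pairs of general type, that is with `1 / m_0 + 1 / m_1 + 1 / m_2 < 1` -/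
def GeneralType (S : Finset ℕ) : Set ℚ :=
  {x | ∃ m : Fin 3 → ℕ∞, (∀ i, 1 ≤ m i) ∧ ∑ i, recip (m i) < 1 ∧ x ∈ Points S m}

/-- the height `max (|num|, den)` -/
def height (x : ℚ) : ℕ := max x.num.natAbs x.den

/-- `n` is one of the three members `|num x|`, `|num x - den x|`, `den x` of the equation `num + (den - num) = den` -/
def Member (x : ℚ) (n : ℕ) : Prop := n = x.num.natAbs ∨ n = (x.num - x.den).natAbs ∨ n = x.den

/-- the random sets of natural numbers of density `n ^ (-α)`: `R n` is the event that `n` is chosen -/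
structure IsRandomSet (α : ℝ) {Ω : Type} [MeasurableSpace Ω] (μ : Measure Ω) (R : ℕ → Set Ω) : Prop where
  prob : IsProbabilityMeasure μ
  meas : ∀ n, MeasurableSet (R n)
  indep : iIndepSet R μ
  density : ∀ n, n ≠ 0 → μ (R n) = ENNReal.ofReal ((n : ℝ) ^ (-α))

/-- the `a < n / 2` such that `n = a + (n - a)` is a sum of two coprime elements of `A`, both at least `n ^ κ` -/
def Reps (A : Set ℕ) (κ : ℝ) (n : ℕ) : Set ℕ :=
  {a | 2 * a < n ∧ a ∈ A ∧ n - a ∈ A ∧ Nat.Coprime a (n - a) ∧ (n : ℝ) ^ κ ≤ a}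

/-! ## Reduction to the multiplicities up to `7` -/

/-- `60 / e` for `e ≤ 6`, and `0` for `e = 7` -/
def G (e : ℕ) : ℕ := if e = 7 then 0 else 60 / e

/-- `e = min (m, 7)` -/
theorem cases7 (m : ℕ∞) (hm : 1 ≤ m) : ∃ e : ℕ, 1 ≤ e ∧ e ≤ 7 ∧ (e : ℕ∞) ≤ m ∧ (G e : ℝ) ≤ 60 * recip m := by
  have hr : 0 ≤ recip m := inv_nonneg.mpr (Nat.cast_nonneg _)
  rcases eq_or_ne m ⊤ with h | h
  · refine ⟨7, by norm_num, le_rfl, by rw [h]; exact le_top, ?_⟩
    simp only [G, if_true, Nat.cast_zero]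
    positivity
  · obtain ⟨e, he⟩ := ENat.ne_top_iff_exists.mp h
    have he1 : 1 ≤ e := by
      rw [← he] at hm
      exact_mod_cast hm
    have h3 : recip m = (e : ℝ)⁻¹ := by rw [← he]; simp [recip]
    rcases Nat.lt_or_ge e 7 with h7 | h7
    · refine ⟨e, he1, h7.le, by rw [← he], ?_⟩
      rw [h3]
      interval_cases e <;> norm_num [G]
    · refine ⟨7, by norm_num, le_rfl, by rw [← he]; exact_mod_cast h7, ?_⟩
      simp only [G, if_true, Nat.cast_zero]
      positivity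

theorem hurwitz : ∀ a ∈ Finset.Icc 1 7, ∀ b ∈ Finset.Icc 1 7, ∀ c ∈ Finset.Icc 1 7,
    a * b * c ≤ a * b + b * c + a * c → 60 ≤ G a + G b + G c := by
  decide

theorem full_nat {S : Finset ℕ} {m : ℕ∞} {e : ℕ} (he : (e : ℕ∞) ≤ m) {n : ℤ} (h : Full S m n) :
    Pool.Agent.T6.H23.CP.FullN S e n.natAbs := by
  intro p hp hpS hd
  have h1 := h p hp hpS (Int.natCast_dvd.2 hd) e he
  have h2 : ((p ^ e : ℕ) : ℤ) ∣ n := by exact_mod_cast h1
  exact Int.natCast_dvd.1 h2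

theorem sub_E7 (S : Finset ℕ) :
    GeneralType S ⊆ ⋃ e ∈ Pool.Agent.T6.H23.CP.E7, Pool.Agent.T6.H23.CP.Pts S e := by
  rintro x ⟨m, hm, hsum, hx0, hx1, k0, k1, k2⟩
  rw [Fin.sum_univ_three] at hsum
  obtain ⟨a, a1, a2, a3, a4⟩ := cases7 (m 0) (hm 0)
  obtain ⟨b, b1, b2, b3, b4⟩ := cases7 (m 1) (hm 1)
  obtain ⟨c, c1, c2, c3, c4⟩ := cases7 (m 2) (hm 2)
  have key2 : a * b + b * c + a * c < a * b * c := by
    by_contra hcon
    have h1 := hurwitz a (Finset.mem_Icc.2 ⟨a1, a2⟩) b (Finset.mem_Icc.2 ⟨b1, b2⟩) c (Finset.mem_Icc.2 ⟨c1, c2⟩)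
      (not_lt.1 hcon)
    have h2 : (60 : ℝ) ≤ G a + G b + G c := by exact_mod_cast h1
    linarith
  simp only [Set.mem_iUnion, exists_prop]
  refine ⟨![a, b, c], ?_, hx0, hx1, ?_, ?_, ?_⟩
  · rw [Pool.Agent.T6.H23.CP.E7, Finset.mem_filter, Fintype.mem_piFinset]
    refine ⟨fun i => ?_, ?_⟩
    · fin_cases i
      · simpa using ⟨a1, a2⟩
      · simpa using ⟨b1, b2⟩
      · simpa using ⟨c1, c2⟩
    · simpa using key2
  · simpa using full_nat a3 k0
  · simpa using full_nat b3 k1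
  · have := full_nat c3 k2
    simpa using this

theorem count (S : Finset ℕ) (ε : ℝ) (hε : 0 < ε) : ∃ C : ℝ, ∀ B : ℝ, 1 ≤ B →
    {x | x ∈ GeneralType S ∧ (height x : ℝ) ≤ B}.Finite ∧
      ({x | x ∈ GeneralType S ∧ (height x : ℝ) ≤ B}.ncard : ℝ) ≤ C * B ^ (167 / 336 + ε) := by
  obtain ⟨C, -, hC⟩ := (Pool.Agent.T6.H23.CP.general_bound S ε hε).mono (sub_E7 S) le_rfl
  exact ⟨C, fun B hB => ⟨(Pool.Agent.T6.H23.CP.H_finite B).subset fun x hx => hx.2, hC B hB⟩⟩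

theorem height_pos (x : ℚ) : (1 : ℝ) ≤ height x := by
  exact_mod_cast Pool.Agent.T6.H23.CP.H_pos x

/-- the members of a point other than `-1`, `1 / 2`, `2` are different -/
theorem distinct {x : ℚ} (h0 : x ≠ 0) (h1 : x ≠ 1) (h2 : x ≠ -1) (h3 : x ≠ 1 / 2) (h4 : x ≠ 2) :
    x.num.natAbs ≠ (x.num - x.den).natAbs ∧ x.num.natAbs ≠ x.den ∧ (x.num - x.den).natAbs ≠ x.den ∧
      x.num.natAbs ≠ 0 ∧ (x.num - x.den).natAbs ≠ 0 ∧ x.den ≠ 0 := by
  obtain ⟨m1, m2, m3, -⟩ := Pool.Agent.T6.H23.CP.members h0 h1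
  have hd : (x.den : ℚ) ≠ 0 := by exact_mod_cast x.den_nz
  have hx : (x.num : ℚ) / x.den = x := Rat.num_div_den x
  refine ⟨fun h => ?_, fun h => ?_, fun h => ?_, by omega, by omega, by omega⟩
  · have h5 : (x.den : ℤ) = 2 * x.num := by omega
    apply h3
    have h6 : (x.den : ℚ) = 2 * x.num := by exact_mod_cast h5
    rw [← hx, div_eq_iff hd, h6]
    ring
  · rcases Int.natAbs_eq x.num with h5 | h5
    · apply h1
      have h6 : x.num = (x.den : ℤ) := by omega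
      rw [← hx, div_eq_iff hd, h6]
      push_cast
      ring
    · apply h2
      have h6 : x.num = -(x.den : ℤ) := by omega
      rw [← hx, div_eq_iff hd, h6]
      push_cast
      ring
  · have h5 : x.num = 2 * (x.den : ℤ) := by omega
    apply h4
    rw [← hx, div_eq_iff hd, h5]
    push_cast
    ring

/-- **Theorem.** (0) For every finite set `S` of primes all C-pairs of general type on the line over `ℚ` with support in
`{0, 1, ∞}` together have at most `C B ^ (167 / 336 + ε)` `S`-integral points of height at most `B`. Let `α > 0`. Random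
sets of natural numbers of density `n ^ (-α)` exist, and almost every such set `A` has the following properties. (1) If
`α > 167 / 336`, then for every `S` only finitely many of these points have a member in `A` which is at least half of the
height. (2) If `α > 167 / 672`, then for every `S` only finitely many of these points have two different members in `A`
which are at least half of the height. (3) If `167 / 336 < θ α`, then for every `S` and `η > 0` only finitely many of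
these points have all the members in `A` and of product at least `η` times the `θ`-th power of the height. (4) If
`α < 1 / 2`, then for all `δ > 0` and `κ < 1` each large `n` has at least `n ^ (1 - 2 α - δ)` representations as a sum of
two coprime elements of `A`, both at least `n ^ κ`. (5) If `α < 1`, the number of elements of `A` up to `T` is
`T ^ (1 - α + o(1))`. -/
theorem result :
    (∀ (S : Finset ℕ) (ε : ℝ), 0 < ε → ∃ C : ℝ, ∀ B : ℝ, 1 ≤ B →
      {x | x ∈ GeneralType S ∧ (height x : ℝ) ≤ B}.Finite ∧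
        ({x | x ∈ GeneralType S ∧ (height x : ℝ) ≤ B}.ncard : ℝ) ≤ C * B ^ (167 / 336 + ε)) ∧
    ∀ α : ℝ, 0 < α →
    (∃ (Ω : Type) (_ : MeasurableSpace Ω) (μ : Measure Ω) (R : ℕ → Set Ω), IsRandomSet α μ R) ∧
    ∀ (Ω : Type) [MeasurableSpace Ω] (μ : Measure Ω) (R : ℕ → Set Ω), IsRandomSet α μ R →
      ∀ᵐ ω ∂μ,
        (167 / 336 < α → ∀ S : Finset ℕ, {x | x ∈ GeneralType S ∧ ∃ n : ℕ, Member x n ∧ ω ∈ R n ∧
          (height x : ℝ) ≤ 2 * n}.Finite) ∧
        (167 / 672 < α → ∀ S : Finset ℕ, {x | x ∈ GeneralType S ∧ ∃ m n : ℕ, m ≠ n ∧ Member x m ∧ Member x n ∧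
          ω ∈ R m ∧ ω ∈ R n ∧ (height x : ℝ) ≤ 2 * m ∧ (height x : ℝ) ≤ 2 * n}.Finite) ∧
        (∀ (S : Finset ℕ) (θ η : ℝ), 0 < η → 167 / 336 < θ * α →
          {x | x ∈ GeneralType S ∧ (∀ n : ℕ, Member x n → ω ∈ R n) ∧
            η * (height x : ℝ) ^ θ ≤ (x.num.natAbs : ℝ) * (x.num - x.den).natAbs * x.den}.Finite) ∧
        (α < 1 / 2 → ∀ δ κ : ℝ, 0 < δ → κ < 1 → ∃ n₀ : ℕ, ∀ n : ℕ, n₀ ≤ n →
          (n : ℝ) ^ (1 - 2 * α - δ) ≤ ((Reps {m | ω ∈ R m} κ n).ncard : ℝ)) ∧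
        (α < 1 → ∀ δ : ℝ, 0 < δ →
          (∃ T₀ : ℝ, ∀ T : ℝ, T₀ ≤ T → T ^ (1 - α - δ) ≤ ({m : ℕ | ω ∈ R m ∧ (m : ℝ) ≤ T}.ncard : ℝ)) ∧
          ∃ K : ℝ, ∀ T : ℝ, 1 ≤ T → ({m : ℕ | ω ∈ R m ∧ (m : ℝ) ≤ T}.ncard : ℝ) ≤ K * T ^ (1 - α + δ)) := by
  classical
  refine ⟨count, fun α hα => ⟨?_, fun Ω _ μ R hR => ?_⟩⟩
  · obtain ⟨Ω, m, μ, R, h⟩ := Pool.Agent.T6.H23.TB.NN.exists_randomSet α hα
    exact ⟨Ω, m, μ, R, h.prob, h.meas, h.indep, h.density⟩
  have h : Pool.Agent.T6.H23.TB.NN.IsRandomSet α μ R := ⟨hR.prob, hR.meas, hR.indep, hR.density⟩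
  have hk1 : ∀ k : ℕ, (0 : ℝ) < 1 / ((k : ℝ) + 1) := fun k => by positivity
  have hmem : ∀ x : ℚ, ∀ n : ℕ, Member x n → n ∈ ({x.num.natAbs, (x.num - x.den).natAbs, x.den} : Finset ℕ) := by
    intro x n hn
    unfold Member at hn
    simpa using hn
  -- (1)
  have p1 : ∀ᵐ ω ∂μ, ∀ S : Finset ℕ, 167 / 336 < α → {x | x ∈ GeneralType S ∧ ∃ n : ℕ, Member x n ∧ ω ∈ R n ∧
      (height x : ℝ) ≤ 2 * n}.Finite := by
    rw [ae_all_iff]
    intro S
    by_cases hq : 167 / 336 < α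
    · obtain ⟨C, hC⟩ := count S ((α - 167 / 336) / 2) (by linarith)
      filter_upwards [Pool.Agent.T6.H23.TB.NN.gen_one h hα (GeneralType S) (fun x => (height x : ℝ))
        (fun x => {x.num.natAbs, (x.num - x.den).natAbs, x.den}) C _ (by linarith) (fun x _ => height_pos x)
        (fun x _ => Finset.card_le_three) hC] with ω hω
      intro _
      refine hω.subset ?_
      rintro x ⟨h1, n, h2, h3, h4⟩
      exact ⟨h1, n, hmem x n h2, h3, h4⟩
    · exact Filter.Eventually.of_forall (fun ω h3 => absurd h3 hq)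
  -- (2)
  have p2 : ∀ᵐ ω ∂μ, ∀ S : Finset ℕ, 167 / 672 < α → {x | x ∈ GeneralType S ∧ ∃ m n : ℕ, m ≠ n ∧ Member x m ∧
      Member x n ∧ ω ∈ R m ∧ ω ∈ R n ∧ (height x : ℝ) ≤ 2 * m ∧ (height x : ℝ) ≤ 2 * n}.Finite := by
    rw [ae_all_iff]
    intro S
    by_cases hq : 167 / 672 < α
    · obtain ⟨C, hC⟩ := count S ((2 * α - 167 / 336) / 2) (by linarith)
      filter_upwards [Pool.Agent.T6.H23.TB.NN.gen_two h hα (GeneralType S) (fun x => (height x : ℝ))
        (fun x => {x.num.natAbs, (x.num - x.den).natAbs, x.den}) C _ (by linarith) (fun x _ => height_pos x)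
        (fun x _ => Finset.card_le_three) hC] with ω hω
      intro _
      refine hω.subset ?_
      rintro x ⟨h1, m, n, h2, h3, h4, h5, h6, h7, h8⟩
      exact ⟨h1, m, hmem x m h3, n, hmem x n h4, h2, h5, h6, h7, h8⟩
    · exact Filter.Eventually.of_forall (fun ω h3 => absurd h3 hq)
  -- (3)
  have p3 : ∀ᵐ ω ∂μ, ∀ (S : Finset ℕ) (n : ℕ) (r : ℚ), 167 / 336 < (r : ℝ) * α →
      {x | x ∈ GeneralType S ∧ (∀ n : ℕ, Member x n → ω ∈ R n) ∧
        1 / ((n : ℝ) + 1) * (height x : ℝ) ^ (r : ℝ) ≤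
          (x.num.natAbs : ℝ) * (x.num - x.den).natAbs * x.den}.Finite := by
    rw [ae_all_iff]
    intro S
    rw [ae_all_iff]
    intro n
    rw [ae_all_iff]
    intro r
    by_cases hq : 167 / 336 < (r : ℝ) * α
    · obtain ⟨C, hC⟩ := count S (((r : ℝ) * α - 167 / 336) / 2) (by linarith)
      have hr0 : 0 ≤ (r : ℝ) := by
        by_contra hcon
        push Not at hcon
        have := mul_neg_of_neg_of_pos hcon hα
        linarith
      set Q : Set ℚ := {x | x ∈ GeneralType S ∧ x ≠ -1 ∧ x ≠ 1 / 2 ∧ x ≠ 2} with hQ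
      have hCQ : ∀ X : ℝ, 1 ≤ X → {t | t ∈ Q ∧ (height t : ℝ) ≤ X}.Finite ∧
          ({t | t ∈ Q ∧ (height t : ℝ) ≤ X}.ncard : ℝ) ≤ C * X ^ (167 / 336 + ((r : ℝ) * α - 167 / 336) / 2) := by
        intro X hX
        obtain ⟨g1, g2⟩ := hC X hX
        have hsub : {t | t ∈ Q ∧ (height t : ℝ) ≤ X} ⊆ {x | x ∈ GeneralType S ∧ (height x : ℝ) ≤ X} :=
          fun t ht => ⟨ht.1.1, ht.2⟩
        refine ⟨g1.subset hsub, le_trans ?_ g2⟩
        exact_mod_cast Set.ncard_le_ncard hsub g1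
      filter_upwards [Pool.Agent.T6.H23.TB.NN.gen_three h hα Q (fun x => (height x : ℝ))
        (fun x => x.num.natAbs) (fun x => (x.num - x.den).natAbs) (fun x => x.den) C _ (r : ℝ) (1 / ((n : ℝ) + 1))
        (hk1 n) hr0 (by linarith) (fun x _ => height_pos x)
        (fun x hx => by
          obtain ⟨⟨m, -, -, g1, g2, -⟩, g3, g4, g5⟩ := hx
          exact distinct g1 g2 g3 g4 g5) hCQ] with ω hω
      intro _
      refine (hω.union (Set.toFinite ({-1, 1 / 2, 2} : Set ℚ))).subset ?_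
      rintro x ⟨h1, h2, h3⟩
      by_cases hx : x = -1 ∨ x = 1 / 2 ∨ x = 2
      · right
        simpa using hx
      · left
        push Not at hx
        exact ⟨⟨h1, hx.1, hx.2.1, hx.2.2⟩, h2 _ (Or.inl rfl), h2 _ (Or.inr (Or.inl rfl)),
          h2 _ (Or.inr (Or.inr rfl)), h3⟩
    · exact Filter.Eventually.of_forall (fun ω h3 => absurd h3 hq)
  -- (4)
  have p4 : ∀ᵐ ω ∂μ, ∀ m n : ℕ, α < 1 / 2 → ∃ n₀ : ℕ, ∀ N : ℕ, n₀ ≤ N →
      (N : ℝ) ^ (1 - 2 * α - 1 / ((m : ℝ) + 1)) ≤ ((Reps {m | ω ∈ R m} (1 - 1 / ((n : ℝ) + 1)) N).ncard : ℝ) := by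
    rw [ae_all_iff]
    intro m
    rw [ae_all_iff]
    intro n
    by_cases hα1 : α < 1 / 2
    · filter_upwards [Pool.Agent.T6.H23.TB.NN.basis h hα hα1 (1 / ((m : ℝ) + 1)) (1 - 1 / ((n : ℝ) + 1)) (hk1 m)
        (by linarith [hk1 n])] with ω hω
      intro _
      exact hω
    · exact Filter.Eventually.of_forall (fun ω h3 => absurd h3 hα1)
  -- (5)
  have p5 : ∀ᵐ ω ∂μ, ∀ m : ℕ, α < 1 →
      (∃ T₀ : ℝ, ∀ T : ℝ, T₀ ≤ T →
        T ^ (1 - α - 1 / ((m : ℝ) + 1)) ≤ ({m : ℕ | ω ∈ R m ∧ (m : ℝ) ≤ T}.ncard : ℝ)) ∧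
      ∃ K : ℝ, ∀ T : ℝ, 1 ≤ T →
        ({m : ℕ | ω ∈ R m ∧ (m : ℝ) ≤ T}.ncard : ℝ) ≤ K * T ^ (1 - α + 1 / ((m : ℝ) + 1)) := by
    rw [ae_all_iff]
    intro m
    by_cases hα2 : α < 1
    · filter_upwards [Pool.Agent.T6.H23.TB.NN.size_lower h hα hα2 (1 / ((m : ℝ) + 1)) (hk1 m),
        Pool.Agent.T6.H23.TB.NN.size_upper h hα2 (1 / ((m : ℝ) + 1)) (hk1 m)] with ω hω1 hω2
      intro _
      exact ⟨hω1, hω2⟩
    · exact Filter.Eventually.of_forall (fun ω h3 => absurd h3 hα2)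
  filter_upwards [p1, p2, p3, p4, p5] with ω w1 w2 w3 w4 w5
  refine ⟨fun hq S => w1 S hq, fun hq S => w2 S hq, fun S θ η hη hexp => ?_, fun hα1 δ κ hδ hκ => ?_,
    fun hα2 δ hδ => ?_⟩
  · obtain ⟨n, hn⟩ := exists_nat_one_div_lt hη
    obtain ⟨r, hr1, hr2⟩ := exists_rat_btwn (show 167 / 336 / α < θ by rwa [div_lt_iff₀ hα])
    refine (w3 S n r (by rwa [div_lt_iff₀ hα] at hr1)).subset ?_
    rintro x ⟨h1, h2, h3⟩
    refine ⟨h1, h2, le_trans ?_ h3⟩
    exact mul_le_mul hn.le (Real.rpow_le_rpow_of_exponent_le (height_pos x) hr2.le)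
      (Real.rpow_nonneg (Nat.cast_nonneg _) _) hη.le
  · obtain ⟨m, hm⟩ := exists_nat_one_div_lt hδ
    obtain ⟨n, hn⟩ := exists_nat_one_div_lt (show 0 < 1 - κ by linarith)
    obtain ⟨n₀, hn₀⟩ := w4 m n hα1
    refine ⟨max n₀ 1, fun N hN => ?_⟩
    have hN1 : 1 ≤ (N : ℝ) := by exact_mod_cast (le_max_right _ _).trans hN
    refine (Real.rpow_le_rpow_of_exponent_le hN1 (by linarith)).trans
      ((hn₀ N ((le_max_left _ _).trans hN)).trans ?_)
    have hsub : Reps {m | ω ∈ R m} (1 - 1 / ((n : ℝ) + 1)) N ⊆ Reps {m | ω ∈ R m} κ N := by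
      rintro a ⟨a1, a2, a3, a4, a5⟩
      exact ⟨a1, a2, a3, a4, (Real.rpow_le_rpow_of_exponent_le hN1 (by linarith)).trans a5⟩
    have hfin : (Reps {m | ω ∈ R m} κ N).Finite :=
      (Finset.finite_toSet (Finset.range N)).subset (fun a ha => by
        have := ha.1
        rw [Finset.mem_coe, Finset.mem_range]
        omega)
    exact_mod_cast Set.ncard_le_ncard hsub hfin
  · obtain ⟨m, hm⟩ := exists_nat_one_div_lt hδ
    obtain ⟨⟨T₀, h9⟩, K, h10⟩ := w5 m hα2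
    refine ⟨⟨max T₀ 1, fun T hT => ?_⟩, max K 0, fun T hT => ?_⟩
    · have hT1 : 1 ≤ T := (le_max_right _ _).trans hT
      exact (Real.rpow_le_rpow_of_exponent_le hT1 (by linarith)).trans (h9 T ((le_max_left _ _).trans hT))
    · refine (h10 T hT).trans ?_
      exact mul_le_mul (le_max_left _ _) (Real.rpow_le_rpow_of_exponent_le hT (by linarith))
        (Real.rpow_nonneg (by linarith) _) (le_max_right _ _)

end Pool.Agent.Results.MP_464c42_nt.RandomBases
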