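import Pool.Agent.T6.H35.AF.Aut

set_option autoImplicit false

/-!
# Integral points given by rational series: chains of images of `𝔾_m`

Let `(X, Δ)` be a C-pair such that the complement of the components of multiplicity `∞` is an affine
variety `W`, embedded as a closed subset of affine `n`-space (for instance a log pair with `Δ` a
reduced ample divisor).  All the integral points of `(X, Δ)` lie on `W`.  If the pair is of general
type and all the multiplicities are `∞`, then `W` is not covered by images of the multiplicative
group `𝔾_m`, and Campana's conjecture says that the integral points are not dense.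

Let `W` be ANY closed subset of affine `n`-space over a field `k` of characteristic `0`, given by
polynomials of degree at most `d`.  Two points of `W` are *chain connected* if they are connected by
a chain of images of morphisms `𝔾_m → W` (over an algebraically closed field).  Let `K ⊇ k` be any
field, `S` a monoid, `ρ : S → M_r(K)` a representation by ARBITRARY (possibly singular) matrices, `M`
a matrix with `n` rows, `w` a vector, and suppose that the points `M ρ(z) w` lie on `W` for all `z` in
a rational subset `𝓛` of `S`.  (If `S` is a free monoid, the coordinates of the point are rational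
series in noncommuting variables, that is, weighted automata; they include linear recurrence
sequences and the regular sequences of Allouche and Shallit.)

(1) The points lie in finitely many chain classes.  More precisely, there is a finite subset `𝓕` of
`𝓛`, which depends only on `𝓛`, `n`, `d` and `r` and whose size is bounded in terms of `n`, `d`, `r`
and the size of an automaton for `𝓛`, such that each point `M ρ(z) w`, `z ∈ 𝓛`, is chain connected
in `W` to a point `M ρ(z') w` with `z' ∈ 𝓕`, for ALL `k`, `W`, `K`, `ρ`, `M` and `w`.  So the number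
of the points `M ρ(z) w` which lie on no nonconstant image of `𝔾_m` in `W` is bounded in the same way
(in particular, if these points are dense in `W`, then the images of `𝔾_m` are dense).  If `W`
contains no nonconstant image of `𝔾_m` over the algebraic closure of `k`, then there are only
finitely many points, and all of them are given by the elements of `𝓕`.

(2) If `𝓛` is a regular language of words in finitely many letters, then for each chain class the
words in `𝓛` which give a point in this class form a regular language, and the number of its left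
quotients (the number of states of its minimal automaton) is bounded in terms of `𝓛`, `n`, `d` and
`r`: a finite automaton computes the chain class of the point.

(3) Let `k` be a number field.  Then `W` contains no nonconstant image of `𝔾_m` over the algebraic
closure of `k` if and only if for all number fields `K ⊇ k` and all `D ≥ 1` the linear recurrence
sequences over `K` with values in the set of the points of `W` with coordinates integral over
`ℤ[1/D]` take only finitely many values.
-/

namespace Pool.Agent.Results.MP_464c42_nt.RationalSeriesOnLogVarieties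

open Pool.Agent.T6.H35.AF
open Pool.Agent.T6.H35.RS (Accepted)

/-- the point `M ρ(z) w` -/
def pt {K : Type} [Field K] {S : Type} {n r : ℕ} (M : Matrix (Fin n) (Fin r) K)
    (ρ : S → Matrix (Fin r) (Fin r) K) (w : Fin r → K) (z : S) : Fin n → K :=
  M.mulVec ((ρ z).mulVec w)

theorem result :
    (∀ n d r v e : ℕ, ∃ B : ℕ, ∀ (S : Type) [Monoid S] (𝓛 : Set S), Accepted v e 𝓛 →
      ∃ 𝓕 ⊆ 𝓛, 𝓕.encard ≤ (B : ℕ∞) ∧
        ∀ (k : Type) [Field k] [CharZero k] (FF : Set (MvPolynomial (Fin n) k)),
          (∀ F ∈ FF, F.totalDegree ≤ d) → ∀ (K : Type) [Field K] [Algebra k K]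
            (M : Matrix (Fin n) (Fin r) K) (ρ : S →* Matrix (Fin r) (Fin r) K)
            (w : Fin r → K), (∀ z ∈ 𝓛, OnW FF (pt M ρ w z)) →
            (∀ z ∈ 𝓛, ∃ z' ∈ 𝓕, Conn FF (up K (pt M ρ w z)) (up K (pt M ρ w z'))) ∧
            {a | (∃ z ∈ 𝓛, a = pt M ρ w z) ∧ ¬ OnCurve FF (up K a)}.encard ≤ (B : ℕ∞) ∧
            (GmFree FF → pt M ρ w '' 𝓛 = pt M ρ w '' 𝓕)) ∧
    (∀ (n d r : ℕ) (A : Type) [Finite A] (𝓛 : Language A), 𝓛.IsRegular → ∃ N : ℕ,
      ∀ (k : Type) [Field k] [CharZero k] (FF : Set (MvPolynomial (Fin n) k)),
        (∀ F ∈ FF, F.totalDegree ≤ d) → ∀ (K : Type) [Field K] [Algebra k K]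
          (M : Matrix (Fin n) (Fin r) K) (ρ : A → Matrix (Fin r) (Fin r) K)
          (w : Fin r → K), (∀ l ∈ 𝓛, OnW FF (wvec M ρ w l)) →
          ∀ Q : Fin n → AlgebraicClosure K, (classOf FF M ρ w 𝓛 Q).IsRegular ∧
            (Set.range (classOf FF M ρ w 𝓛 Q).leftQuotient).encard ≤ (N : ℕ∞)) ∧
    (∀ (k : Type) [Field k] [NumberField k] (n : ℕ) (FF : Set (MvPolynomial (Fin n) k)),
      (GmFree FF ↔
        ∀ (K : Type) [Field K] [NumberField K] [Algebra k K] (r : ℕ)
          (M : Matrix (Fin n) (Fin r) K) (g : Matrix (Fin r) (Fin r) K) (w : Fin r → K) (D : ℕ),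
          D ≠ 0 → (∀ m : ℕ, OnW FF (M.mulVec ((g ^ m).mulVec w)) ∧
            SInt D (M.mulVec ((g ^ m).mulVec w))) →
          (Set.range fun m : ℕ => M.mulVec ((g ^ m).mulVec w)).Finite)) := by
  refine ⟨?_, fun n d r A _ 𝓛 h𝓛 => classes n d r h𝓛, ?_⟩
  · intro n d r v e
    obtain ⟨B, hB⟩ := uniform_aut n d r v e
    refine ⟨B, ?_⟩
    intro S _ 𝓛 h𝓛
    obtain ⟨𝓕, hF1, hF2, hF3⟩ := hB S 𝓛 h𝓛
    refine ⟨𝓕, hF1, hF2, ?_⟩
    intro k _ _ FF hFF K _ _ M ρ w hX
    have h1 : ∀ z ∈ 𝓛, ∃ z' ∈ 𝓕, Conn FF (up K (pt M ρ w z)) (up K (pt M ρ w z')) := by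
      intro z hz
      obtain ⟨r, hr, h⟩ := hF3 k FF hFF K ρ z hz
      exact ⟨r, hr, h M w hX⟩
    refine ⟨h1, ?_, ?_⟩
    · refine le_trans (Set.encard_le_encard ?_) ((Set.encard_image_le (pt M ρ w) 𝓕).trans hF2)
      rintro _ ⟨⟨z, hz, rfl⟩, hno⟩
      obtain ⟨z', hz', h2⟩ := h1 z hz
      exact ⟨z', hz', (up_inj K (conn_hyp h2 (Or.inl hno))).symm⟩
    · intro hG
      apply Set.Subset.antisymm
      · rintro _ ⟨z, hz, rfl⟩
        obtain ⟨z', hz', h2⟩ := h1 z hz
        exact ⟨z', hz', (up_inj K (hG.conn h2)).symm⟩
      · exact Set.image_mono hF1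
  · intro k _ _ n FF
    constructor
    · intro hG K _ _ _ r M g w D _ hX
      exact powers_finite hG M g w (fun m => (hX m).1)
    · intro hfin
      by_contra hno
      obtain ⟨r, K, iK, iN, iA, M, g, w, D, h1, h2, h3⟩ := conv FF hno
      exact h3 (hfin K r M g w D h1 h2)

end Pool.Agent.Results.MP_464c42_nt.RationalSeriesOnLogVarieties
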