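import Pool.Agent.T6.H35.GF.Cls

set_option autoImplicit false

/-!
# Integral points of C-pairs given by rational series of polynomial growth

Let `(X, Δ)` be ANY C-pair over a number field `K`: `X` is a closed subset of projective space,
`Δ = ∑ (1 - 1 / m i) D i`, where the `D i` are any closed subsets and `m i ∈ {1, 2, …, ∞}` any
multiplicities.  Integral points are meant with respect to the multiplicities (`IsIntegralPoint`:
outside a finite set of primes `S₀` the intersection number with `D i` is zero or at least `m i`).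

Let `S` be a monoid, `ρ : S → M_r(K)` a representation such that the eigenvalues of all the matrices
`ρ(z)` are roots of unity or zero (`Cycl`; the matrices may be singular, and they need not generate a
virtually unipotent group), `M` a matrix, `x` a vector.  If `S` is the free monoid, the coordinates of
`M ρ(z) x` are the rational series of polynomial growth (weighted automata), for instance sequences
which are polynomial on residue classes, or regular sequences of polynomial growth in the logarithm of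
the index.  Let `𝓛` be a rational subset of `S`.

(1) There is a finite subset `𝓕` of `𝓛`, which depends only on `𝓛` and `ρ`, such that for all C-pairs
`(X, Δ)` over `K`, all finite sets `S₀` and all `M` and `x` such that the points `M ρ(z) x`, `z ∈ 𝓛`,
are integral points of `(X, Δ)`: each of them is joined to one of the points `M ρ(z') x`, `z' ∈ 𝓕`, by
a chain of polynomial orbifold curves `𝔸¹ → (X, Δ)` over `K`.  In particular a point which does not
lie on a nonconstant polynomial orbifold curve is one of the points with `z' ∈ 𝓕`.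

(2) If `X = ℙ¹` and `(X, Δ)` is of general type, or more generally `∑ (1 - 1 / m i) deg D i ≥ 2` with
reduced disjoint divisors, then there are at most as many different points as elements of `𝓕`.

(3) If `S` is the free monoid over a finite alphabet and `𝓛` a regular language, then for each point
`Q` the words of `𝓛` whose point can be joined to `Q` by a chain of polynomial orbifold curves form a
regular language, and the number of its left quotients (the number of states of its minimal automaton)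
is bounded in terms of `𝓛` and `ρ`.

(4) A vector `f` of polynomials over `K` without common zeros is a polynomial orbifold curve in the
C-pair if and only if there is a finite set `S₀` such that all the points `f(k)`, `k ∈ ℕ`, are
integral points of the pair.  So the chains in (1) are chains of the simplest families of integral
points of this kind.
-/

namespace Pool.Agent.Results.MP_464c42_nt.SeriesOfPolynomialGrowth

open NumberField Polynomial IsDedekindDomain Pool.Agent.T6.H54.PM Pool.Agent.T6.H35.GF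
open Pool.Agent.T6.H35.RS (IsRational)

theorem result (K : Type) [Field K] [NumberField K] :
    (∀ (S : Type) [Monoid S] (𝓛 : Set S), IsRational 𝓛 → ∀ (r : ℕ)
      (ρ : S →* Matrix (Fin r) (Fin r) K), (∀ z, Cycl K r (ρ z)) →
      ∃ 𝓕 ⊆ 𝓛, 𝓕.Finite ∧
        -- (1)
        (∀ (N : ℕ) (FF : Set (MvPolynomial (Fin (N + 1)) (𝓞 K))),
          (∀ G ∈ FF, ∃ e, G.IsHomogeneous e) →
          ∀ (q w : ℕ) (B : Fin q → Fin w → MvPolynomial (Fin (N + 1)) (𝓞 K)) (m : Fin q → ℕ∞)
            (S₀ : Set (HeightOneSpectrum (𝓞 K))), S₀.Finite →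
          ∀ (M : Matrix (Fin (N + 1)) (Fin r) K) (x : Fin r → K),
            (∀ z ∈ 𝓛, OnPair FF B m S₀ (pt M ρ x z)) →
            ∀ z ∈ 𝓛, ∃ z' ∈ 𝓕, Joined FF B m (pt M ρ x z) (pt M ρ x z') ∧
              (Isolated FF B m (pt M ρ x z) → Same (pt M ρ x z) (pt M ρ x z'))) ∧
        -- (2)
        (∀ (q : ℕ) (B : Fin q → MvPolynomial (Fin 2) (𝓞 K)) (e : Fin q → ℕ),
          (∀ i, (B i).IsHomogeneous (e i)) →
          (∀ i (z : Fin 2 → AlgebraicClosure K), z ≠ 0 → MvPolynomial.aeval z (B i) = 0 →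
            ∃ j, MvPolynomial.aeval z (MvPolynomial.pderiv j (B i)) ≠ 0) →
          (∀ i i', i ≠ i' → ∀ z : Fin 2 → AlgebraicClosure K, z ≠ 0 →
            MvPolynomial.aeval z (B i) = 0 → MvPolynomial.aeval z (B i') ≠ 0) →
          ∀ m : Fin q → ℕ∞, (∀ i, 1 ≤ m i) → 2 ≤ ∑ i, cf (m i) * e i →
          ∀ (S₀ : Set (HeightOneSpectrum (𝓞 K))), S₀.Finite →
          ∀ (M : Matrix (Fin 2) (Fin r) K) (x : Fin r → K),
            (∀ z ∈ 𝓛, pt M ρ x z ≠ 0 ∧
              IsIntegralPoint (N := 1) S₀ (fun i (_ : Fin 1) => B i) m (pt M ρ x z)) →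
            ∀ z ∈ 𝓛, ∃ z' ∈ 𝓕, Same (N := 1) (pt M ρ x z) (pt M ρ x z'))) ∧
    -- (3)
    (∀ (A : Type) [Finite A] (𝓛 : Language A), 𝓛.IsRegular → ∀ (r : ℕ)
      (ρ : A → Matrix (Fin r) (Fin r) K), (∀ l : List A, Cycl K r (l.map ρ).prod) →
      ∃ N₀ : ℕ, ∀ (N : ℕ) (FF : Set (MvPolynomial (Fin (N + 1)) (𝓞 K))),
        (∀ G ∈ FF, ∃ e, G.IsHomogeneous e) →
        ∀ (q w : ℕ) (B : Fin q → Fin w → MvPolynomial (Fin (N + 1)) (𝓞 K)) (m : Fin q → ℕ∞)
          (S₀ : Set (HeightOneSpectrum (𝓞 K))), S₀.Finite →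
        ∀ (M : Matrix (Fin (N + 1)) (Fin r) K) (x : Fin r → K),
          (∀ l ∈ 𝓛, OnPair FF B m S₀ (wvec M ρ x l)) →
          ∀ Q : Fin (N + 1) → K,
            Language.IsRegular {l | l ∈ 𝓛 ∧ Joined FF B m (wvec M ρ x l) Q} ∧
            (Set.range (Language.leftQuotient
              {l | l ∈ 𝓛 ∧ Joined FF B m (wvec M ρ x l) Q})).encard ≤ (N₀ : ℕ∞)) ∧
    -- (4)
    (∀ (N : ℕ) (FF : Set (MvPolynomial (Fin (N + 1)) (𝓞 K))),
      (∀ G ∈ FF, ∃ e, G.IsHomogeneous e) →
      ∀ (q w : ℕ) (B : Fin q → Fin w → MvPolynomial (Fin (N + 1)) (𝓞 K)),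
        (∀ i l, ∃ e, (B i l).IsHomogeneous e) →
        ∀ (m : Fin q → ℕ∞) (f : Fin (N + 1) → K[X]),
          (∃ u : Fin (N + 1) → K[X], ∑ j, u j * f j = 1) →
          (OrbifoldCurve FF B m f ↔ ∃ S₀ : Set (HeightOneSpectrum (𝓞 K)), S₀.Finite ∧
            ∀ k : ℕ, (∀ G ∈ FF, MvPolynomial.aeval (fun j => (f j).eval (k : K)) G = 0) ∧
              IsIntegralPoint S₀ B m (fun j => (f j).eval (k : K)))) := by
  refine ⟨?_, ?_, fun N FF hFF q w B hB m f hu => orb_iff FF hFF B hB m f hu⟩
  · intro S _ 𝓛 h𝓛 r ρ hρ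
    obtain ⟨𝓕, h1, h2, h3⟩ := camp_main h𝓛 ρ hρ
    refine ⟨𝓕, h1, h2, ?_, ?_⟩
    · intro N FF hFF q w B m S₀ hS₀ M x hX z hz
      obtain ⟨z', hz', h4⟩ := h3 N FF hFF q w B m S₀ hS₀ M x hX z hz
      exact ⟨z', hz', h4, fun h => h.same h4⟩
    · intro q B e hB hsm hdj m hm1 hdeg S₀ hS₀ M x hX z hz
      obtain ⟨z', hz', h4⟩ := h3 1 ∅ (by simp) q 1 (fun i (_ : Fin 1) => B i) m S₀ hS₀ M x
        (fun z hz => ⟨(hX z hz).1, by simp, (hX z hz).2⟩) z hz
      refine ⟨z', hz', Isolated.same ?_ h4⟩
      intro f hf s t hs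
      have h5 := fun j => orb_line B e hB hsm hdj m hm1 hdeg f hf j
      choose c hc using h5
      obtain ⟨a, ha, h6⟩ := hs
      refine ⟨a, ha, fun j => ?_⟩
      have h7 : pt M ρ x z j = a * (f j).eval s := h6 j
      show pt M ρ x z j = a * (f j).eval t
      rw [h7, hc j, eval_C, eval_C]
  · intro A _ 𝓛 h𝓛 r ρ hρ
    obtain ⟨N₀, h⟩ := classes_gen (K := K) cyc_cycl h𝓛 ρ hρ
    refine ⟨N₀, ?_⟩
    intro N FF hFF q w B m S₀ hS₀ M x hX Q
    exact h (N + 1) _ _ (tst_camp FF hFF B m S₀ hS₀) M x hX (fun a => Joined FF B m a Q)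
      (fun a b hab => ⟨fun h1 => Relation.ReflTransGen.trans hab.symm h1,
        fun h1 => Relation.ReflTransGen.trans hab h1⟩)

end Pool.Agent.Results.MP_464c42_nt.SeriesOfPolynomialGrowth
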